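import Mathlib
import Pool.Agent.Lib.ModularZP.Defs
import Pool.Agent.Lib.ModularZP.Criterion
import Pool.Agent.Lib.ModularZP.Place
import Pool.Agent.Lib.ModularZP.GoodPrime

open Pool.Agent.Lib.ModularZP

namespace Pool.Agent.Results.MP_e573c6_ag.Translates

variable {V : ValuationSubring ℂ} {p : ℕ}

/-- away from the bad residue disc the transformed coordinate is close to the prescribed value -/
lemma rob_of_unit (hp : p.Prime) (hV : V.valuation (p : ℂ) < 1) (n i : ℕ) {s t α : ℂ} (hs : s ∈ V) (ht : t ∈ V)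
    {a b c d z1 z2 z3 z4 : ℂ} (h1 : z1 ∈ V) (h2 : z2 ∈ V) (h3 : z3 ∈ V) (h4 : z4 ∈ V)
    (ha : a = (1 + (p : ℂ) ^ (i + 2)) + (p : ℂ) ^ (2 * n + 5) * z1)
    (hb : b = -(1 + (p : ℂ) ^ (i + 2)) * α + (p : ℂ) ^ (2 * n + 5) * z2)
    (hc : c = (p : ℂ) ^ (n + 3) + (p : ℂ) ^ (2 * n + 5) * z3)
    (hd : d = -(p : ℂ) ^ (n + 3) * α + (p : ℂ) ^ (2 * n + 5) * z4)
    (hw : V.valuation (s - α * t) = 1) {x : ℂ} (hx : a * s + b * t = x * (c * s + d * t)) : Rob V p n i x := by
  have hp0 : (p : ℂ) ≠ 0 := by exact_mod_cast hp.ne_zero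
  have hpV : (p : ℂ) ∈ V := natCast_mem V p
  set w := s - α * t with hwdef
  set A := 1 + (p : ℂ) ^ (i + 2) with hA
  have hAv : V.valuation A = 1 := val_one_add' hV (by omega)
  have hA0 : A ≠ 0 := ne_zero_of_val hAv
  have hw0 : w ≠ 0 := ne_zero_of_val hw
  have hAi : A⁻¹ ∈ V := inv_mem_of_val hAv
  have hwi : w⁻¹ ∈ V := inv_mem_of_val hw
  set y1 := (z1 * s + z2 * t) * (A⁻¹ * w⁻¹) with hy1
  set y2 := (z3 * s + z4 * t) * w⁻¹ with hy2
  have hy1V : y1 ∈ V := mul_mem (add_mem (mul_mem h1 hs) (mul_mem h2 ht)) (mul_mem hAi hwi)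
  have hy2V : y2 ∈ V := mul_mem (add_mem (mul_mem h3 hs) (mul_mem h4 ht)) hwi
  have e1 : a * s + b * t = A * w * (1 + (p : ℂ) ^ (2 * n + 5) * y1) := by
    have h5 : A * w * y1 = z1 * s + z2 * t := by
      rw [hy1]; field_simp
    rw [mul_add, mul_one, mul_left_comm, h5, ha, hb, hwdef]
    ring
  have e2 : c * s + d * t = (p : ℂ) ^ (n + 3) * w * (1 + (p : ℂ) ^ (n + 2) * y2) := by
    have h5 : w * y2 = z3 * s + z4 * t := by
      rw [hy2]; field_simp
    have h6 : (p : ℂ) ^ (n + 3) * w * (1 + (p : ℂ) ^ (n + 2) * y2) = (p : ℂ) ^ (n + 3) * w + (p : ℂ) ^ (2 * n + 5) * (w * y2) := by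
      ring
    rw [h6, h5, hc, hd, hwdef]
    ring
  have hDv : V.valuation (1 + (p : ℂ) ^ (n + 2) * y2) = 1 := val_one_add hV (by omega) hy2V
  have hD0 := ne_zero_of_val hDv
  refine ⟨((p : ℂ) ^ (n + 3) * y1 - y2) * (1 + (p : ℂ) ^ (n + 2) * y2)⁻¹, ?_, ?_⟩
  · exact mul_mem (sub_mem (mul_mem (pow_mem hpV _) hy1V) hy2V) (inv_mem_of_val hDv)
  · rw [e1, e2] at hx
    have h7 : 1 + (p : ℂ) ^ (n + 2) * (((p : ℂ) ^ (n + 3) * y1 - y2) * (1 + (p : ℂ) ^ (n + 2) * y2)⁻¹) =
        (1 + (p : ℂ) ^ (2 * n + 5) * y1) / (1 + (p : ℂ) ^ (n + 2) * y2) := by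
      rw [eq_div_iff hD0, add_mul, one_mul, mul_assoc, mul_assoc, inv_mul_cancel₀ hD0]
      ring
    rw [h7, div_mul_div_comm, eq_div_iff (mul_ne_zero (pow_ne_zero _ hp0) hD0)]
    apply mul_right_cancel₀ hw0
    linear_combination -hx

/-- in the bad residue disc the value is congruent to `α` -/
lemma cong_of_not_unit {s t : ℂ} {α : ℂ} (hα : α ∈ V) (hs : s ∈ V) (ht : t ∈ V) (hst : s = 1 ∨ t = 1)
    (hw : V.valuation (s - α * t) ≠ 1) : t ≠ 0 ∧ Cg V (s / t) α := by
  have hle : V.valuation (s - α * t) ≤ 1 := (V.valuation_le_one_iff _).mpr (sub_mem hs (mul_mem hα ht))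
  have hlt : V.valuation (s - α * t) < 1 := lt_of_le_of_ne hle hw
  have htv : V.valuation t = 1 := by
    rcases hst with h | h
    · have h1 : V.valuation (α * t) = 1 := by
        have h2 : α * t = 1 - (s - α * t) := by rw [h]; ring
        rw [h2]
        have := V.valuation.map_one_sub_of_lt hlt
        exact this
      rw [map_mul] at h1
      have h3 : V.valuation α ≤ 1 := (V.valuation_le_one_iff _).mpr hα
      have h4 : V.valuation t ≤ 1 := (V.valuation_le_one_iff _).mpr ht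
      refine le_antisymm h4 ?_
      calc 1 = V.valuation α * V.valuation t := h1.symm
        _ ≤ 1 * V.valuation t := mul_le_mul_left h3 _
        _ = _ := one_mul _
    · rw [h, map_one]
  have ht0 := ne_zero_of_val htv
  refine ⟨ht0, ?_, hα, ?_⟩
  · rw [div_eq_mul_inv]; exact mul_mem hs (inv_mem_of_val htv)
  · have : s / t - α = (s - α * t) / t := by field_simp
    rw [this, map_div₀, htv, div_one]
    exact hlt

/-- the integral matrices -/
def gam (p n : ℕ) (i : ℕ) (α : ℤ) : Matrix (Fin 2) (Fin 2) ℤ :=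
  !![1 + (p : ℤ) ^ (i + 2), -(1 + (p : ℤ) ^ (i + 2)) * α; (p : ℤ) ^ (n + 3), -(p : ℤ) ^ (n + 3) * α]

/-- integral matrices in prescribed residue classes with non-zero determinant -/
lemma exists_gamma₀ (hp : p.Prime) (n i : ℕ) (α : ℤ) (N₀ : ℕ) (hN₀ : 0 < N₀) (hco : IsCoprime (N₀ : ℤ) ((p : ℤ) ^ (2 * n + 5)))
    (G : Matrix (Fin 2) (Fin 2) ℤ) : ∃ H : Matrix (Fin 2) (Fin 2) ℤ, H.det ≠ 0 ∧
      (∀ r s, (N₀ : ℤ) ∣ H r s - G r s) ∧ (∀ r s, ∃ k : ℤ, H r s = gam p n i α r s + (p : ℤ) ^ (2 * n + 5) * k) := by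
  have hp0 : (p : ℤ) ≠ 0 := by exact_mod_cast hp.ne_zero
  have hN0 : (N₀ : ℤ) ≠ 0 := by exact_mod_cast hN₀.ne'
  obtain ⟨u, v, huv⟩ := hco
  set Q : ℤ := (p : ℤ) ^ (2 * n + 5) with hQ
  have hQ0 : Q ≠ 0 := pow_ne_zero _ hp0
  -- a first solution
  set H0 : Matrix (Fin 2) (Fin 2) ℤ := fun r s => G r s * (v * Q) + gam p n i α r s * (u * N₀) with hH0
  have h1 : ∀ r s, H0 r s - G r s = N₀ * ((gam p n i α r s - G r s) * u) := by
    intro r s
    simp only [hH0]
    linear_combination G r s * huv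
  have h2 : ∀ r s, H0 r s = gam p n i α r s + Q * ((G r s - gam p n i α r s) * v) := by
    intro r s
    simp only [hH0]
    linear_combination (gam p n i α r s) * huv
  have h10 : H0 1 0 ≠ 0 := by
    rw [h2]
    simp only [gam, Matrix.of_apply, Matrix.cons_val', Matrix.cons_val_zero, Matrix.cons_val_one, Matrix.cons_val_fin_one]
    intro h0
    have h3 : Q = (p : ℤ) ^ (n + 3) * (p : ℤ) ^ (n + 2) := by rw [hQ, ← pow_add]; congr 1; omega
    have h4 : (p : ℤ) ^ (n + 3) * (1 + (p : ℤ) ^ (n + 2) * ((G 1 0 - (p : ℤ) ^ (n + 3)) * v)) = 0 := by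
      rw [h3] at h0
      linear_combination h0
    have h5 := (mul_eq_zero.mp h4).resolve_left (pow_ne_zero _ hp0)
    have h6 : (p : ℤ) ∣ 1 := by
      have : (1 : ℤ) = (p : ℤ) * (-((p : ℤ) ^ (n + 1) * ((G 1 0 - (p : ℤ) ^ (n + 3)) * v))) := by
        linear_combination h5
      exact Dvd.intro _ this.symm
    have h7 := Int.isUnit_iff.mp (isUnit_of_dvd_one h6)
    have := hp.two_le
    omega
  have key : ∀ k : ℤ, (∀ r s, (N₀ : ℤ) ∣ (H0 + !![0, (N₀ * Q) * k; 0, 0]) r s - G r s) ∧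
      (∀ r s, ∃ l : ℤ, (H0 + !![0, (N₀ * Q) * k; 0, 0]) r s = gam p n i α r s + Q * l) := by
    intro k
    refine ⟨fun r s => ?_, fun r s => ?_⟩
    · have h3 : (H0 + !![0, (N₀ * Q) * k; 0, 0]) r s - G r s = (H0 r s - G r s) + (!![0, (N₀ * Q) * k; 0, 0] : Matrix (Fin 2) (Fin 2) ℤ) r s := by
        rw [Matrix.add_apply]; ring
      rw [h3, h1]
      refine dvd_add (dvd_mul_right _ _) ?_
      fin_cases r <;> fin_cases s <;> simp [mul_assoc]
    · rw [Matrix.add_apply, h2]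
      fin_cases r <;> fin_cases s
      · exact ⟨(G 0 0 - gam p n i α 0 0) * v, by simp⟩
      · exact ⟨(G 0 1 - gam p n i α 0 1) * v + N₀ * k, by simp; ring⟩
      · exact ⟨(G 1 0 - gam p n i α 1 0) * v, by simp⟩
      · exact ⟨(G 1 1 - gam p n i α 1 1) * v, by simp⟩
  by_cases hdet : (H0 + !![0, (N₀ * Q) * 0; 0, 0]).det = 0
  · refine ⟨H0 + !![0, (N₀ * Q) * 1; 0, 0], ?_, (key 1).1, (key 1).2⟩
    rw [Matrix.det_fin_two] at hdet ⊢
    simp only [Matrix.add_apply, Matrix.of_apply, Matrix.cons_val', Matrix.cons_val_zero, Matrix.cons_val_one,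
      Matrix.cons_val_fin_one, mul_zero, mul_one, add_zero] at hdet ⊢
    intro h
    have h3 : (N₀ * Q) * H0 1 0 = 0 := by linear_combination hdet - h
    exact (mul_ne_zero (mul_ne_zero hN0 hQ0) h10) h3
  · exact ⟨_, hdet, (key 0).1, (key 0).2⟩

/-- points where no two relations vanish -/
lemma exists_alpha {n : ℕ} (P : Fin n × Fin n → MvPolynomial (Fin 2) ℂ) (hP : ∀ q, P q ≠ 0) :
    ∃ α : Fin n → ℤ, ∀ i j, i ≠ j → MvPolynomial.eval ![(α i : ℂ), (α j : ℂ)] (P (i, j)) ≠ 0 := by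
  classical
  set G : MvPolynomial (Fin n) ℂ := ∏ q : Fin n × Fin n, if q.1 = q.2 then 1 else MvPolynomial.rename ![q.1, q.2] (P q) with hG
  have hG0 : G ≠ 0 := by
    rw [hG]
    refine Finset.prod_ne_zero_iff.mpr fun q _ => ?_
    split_ifs with h
    · exact one_ne_zero
    · intro h0
      apply hP q
      have hinj : Function.Injective (![q.1, q.2] : Fin 2 → Fin n) := by
        intro a b hab
        fin_cases a <;> fin_cases b
        · rfl
        · exact absurd hab h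
        · exact absurd hab.symm h
        · rfl
      exact MvPolynomial.rename_injective _ hinj (by rw [h0, map_zero])
  obtain ⟨x, hx, hxG⟩ : ∃ x ∈ Set.pi Set.univ (fun _ : Fin n => Set.range ((↑) : ℤ → ℂ)), MvPolynomial.eval x G ≠ 0 := by
    by_contra hcon
    push Not at hcon
    apply hG0
    refine MvPolynomial.funext_set (fun _ : Fin n => Set.range ((↑) : ℤ → ℂ))
      (fun _ => Set.infinite_range_of_injective Int.cast_injective) ?_
    intro x hx
    rw [hcon x hx, map_zero]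
  choose α hα using fun i => hx i (Set.mem_univ i)
  refine ⟨α, fun i j hij => ?_⟩
  rw [hG, map_prod] at hxG
  have h1 := (Finset.prod_ne_zero_iff.mp hxG) (i, j) (Finset.mem_univ _)
  rw [if_neg hij, MvPolynomial.eval_rename] at h1
  have h2 : x ∘ ![i, j] = ![(α i : ℂ), (α j : ℂ)] := by
    ext k
    fin_cases k
    · exact (hα i).symm
    · exact (hα j).symm
  rwa [h2] at h1

/-- **Zilber–Pink for a positive proportion of the translates of every curve in `(ℙ¹)ⁿ`.** -/
theorem result (n : ℕ) {K : Type*} [Field K] [Algebra ℂ K] (hK : Algebra.trdeg ℂ K = 1)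
    (f : Fin n → K) (hf : ∀ i, Transcendental ℂ (f i))
    (N₀ : ℕ) (hN₀ : 0 < N₀) (G : Fin n → Matrix (Fin 2) (Fin 2) ℤ) :
    ∃ (M : ℕ) (γ₀ : Fin n → Matrix (Fin 2) (Fin 2) ℤ), 0 < M ∧ N₀ ∣ M ∧
      (∀ i, (γ₀ i).det ≠ 0) ∧ (∀ i r s, (N₀ : ℤ) ∣ γ₀ i r s - G i r s) ∧
      ∀ γ : Fin n → Matrix (Fin 2) (Fin 2) ℂ, (∀ i, (γ i).det ≠ 0) →
        (∀ i r s, ∃ z : ℂ, IsIntegral ℤ z ∧ γ i r s = γ₀ i r s + M * z) →
        HodgeGeneric (placeCurve fun i => moebius (γ i) (f i)) ∧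
        atyp (placeCurve fun i => moebius (γ i) (f i)) = ∅ := by
  classical
  choose P hP0 hP using fun q : Fin n × Fin n => exists_relation hK (a := f q.1) (b := f q.2)
  obtain ⟨α, hα⟩ := exists_alpha P hP0
  obtain ⟨p, V, hp, hV, hS⟩ := exists_good ({((N₀ : ℂ))⁻¹} ∪ ((Finset.univ.biUnion fun q => (P q).support.image fun m => (P q).coeff m) ∪
    Finset.univ.image fun q : Fin n × Fin n => (MvPolynomial.eval ![(α q.1 : ℂ), (α q.2 : ℂ)] (P q))⁻¹))
  have hcoef : ∀ q m, (P q).coeff m ∈ V := by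
    intro q m
    by_cases hm : m ∈ (P q).support
    · apply hS
      rw [Finset.mem_union, Finset.mem_union, Finset.mem_biUnion]
      exact Or.inr (Or.inl ⟨q, Finset.mem_univ _, Finset.mem_image_of_mem _ hm⟩)
    · rw [MvPolynomial.notMem_support_iff.mp hm]; exact V.zero_mem
  have hev : ∀ i j, (MvPolynomial.eval ![(α i : ℂ), (α j : ℂ)] (P (i, j)))⁻¹ ∈ V := by
    intro i j
    apply hS
    rw [Finset.mem_union, Finset.mem_union, Finset.mem_image]
    exact Or.inr (Or.inr ⟨(i, j), Finset.mem_univ _, rfl⟩)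
  have hN₀V : ((N₀ : ℂ))⁻¹ ∈ V := hS _ (by rw [Finset.mem_union, Finset.mem_singleton]; exact Or.inl rfl)
  have hco : IsCoprime (N₀ : ℤ) ((p : ℤ) ^ (2 * n + 5)) := by
    apply IsCoprime.pow_right
    rw [Nat.isCoprime_iff_coprime, Nat.coprime_comm]
    refine (Nat.Prime.coprime_iff_not_dvd hp).mpr fun hd => ?_
    obtain ⟨k, rfl⟩ := hd
    have h1 := (V.valuation_le_one_iff _).mpr hN₀V
    have h2 : V.valuation ((p * k : ℕ) : ℂ) < 1 := by
      push_cast
      rw [mul_comm]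
      exact val_mul_lt (natCast_mem V k) hV
    have h3 : V.valuation ((p * k : ℕ) : ℂ) ≠ 0 := by
      rw [Ne, map_eq_zero]; exact_mod_cast hN₀.ne'
    rw [map_inv₀] at h1
    exact absurd h2 (not_lt.mpr ((inv_le_one₀ (zero_lt_iff.mpr h3)).mp h1))
  choose γ₀ hdet hGc hgam using fun i : Fin n => exists_gamma₀ hp n i (α i) N₀ hN₀ hco (G i)
  refine ⟨N₀ * p ^ (2 * n + 5), γ₀, Nat.mul_pos hN₀ (pow_pos hp.pos _), dvd_mul_right _ _, hdet, hGc, ?_⟩
  intro γ hγ hcong
  set g : Fin n → K := fun i => moebius (γ i) (f i) with hg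
  have hgt : ∀ i, Transcendental ℂ (g i) := fun i => moebius_transcendental (hf i) (hγ i)
  have hent : ∀ i r s, ∃ z : ℂ, z ∈ V ∧ γ i r s = gam p n i (α i) r s + (p : ℂ) ^ (2 * n + 5) * z := by
    intro i r s
    obtain ⟨z, hz, e1⟩ := hcong i r s
    obtain ⟨k, hk⟩ := hgam i r s
    refine ⟨k + N₀ * z, add_mem (intCast_mem V k) (mul_mem (natCast_mem V _) (mem_of_isIntegral V hz)), ?_⟩
    rw [e1, hk]
    push_cast
    ring
  -- the key property
  have key : ∀ x ∈ placeCurve g, ∀ i j : Fin n, i ≠ j → Rob V p n i (x i) ∨ Rob V p n j (x j) := by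
    rintro x ⟨Q, hQ, hQt, hQx⟩
    have hval := fun i => exists_hvalue hK hQ hQt (f i) V
    choose s t hs ht hst h1 h2 using hval
    have hmv := fun i => moebius_value hQ (hf i) (hγ i) (hst i) (h1 i) (h2 i) (hQx i)
    have hrob : ∀ i, V.valuation (s i - (α i : ℂ) * t i) = 1 → Rob V p n i (x i) := by
      intro i hw
      obtain ⟨z1, hz1, e1⟩ := hent i 0 0
      obtain ⟨z2, hz2, e2⟩ := hent i 0 1
      obtain ⟨z3, hz3, e3⟩ := hent i 1 0
      obtain ⟨z4, hz4, e4⟩ := hent i 1 1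
      refine rob_of_unit hp hV n i (hs i) (ht i) (α := (α i : ℂ)) hz1 hz2 hz3 hz4
        (a := γ i 0 0) (b := γ i 0 1) (c := γ i 1 0) (d := γ i 1 1) ?_ ?_ ?_ ?_ hw (hmv i).2
      · rw [e1]; simp [gam]
      · rw [e2]; simp [gam]
      · rw [e3]; simp [gam]
      · rw [e4]; simp [gam]
    intro i j hij
    by_contra hcon
    push Not at hcon
    obtain ⟨hti, hci⟩ := cong_of_not_unit (intCast_mem V (α i)) (hs i) (ht i) (hst i) (fun h => hcon.1 (hrob i h))
    obtain ⟨htj, hcj⟩ := cong_of_not_unit (intCast_mem V (α j)) (hs j) (ht j) (hst j) (fun h => hcon.2 (hrob j h))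
    have hrel := relation_value hQ (hP (i, j)) (h1 i hti) (h1 j htj)
    have hC := Cg.mvEval (P := V) (P (i, j)) (hcoef (i, j)) (x := ![s i / t i, s j / t j]) (y := ![(α i : ℂ), (α j : ℂ)])
      (fun k => by
        fin_cases k
        · exact hci
        · exact hcj)
    have h3 := hC.2.2
    rw [hrel, zero_sub, Valuation.map_neg] at h3
    have h4 := (V.valuation_le_one_iff _).mpr (hev i j)
    rw [map_inv₀] at h4
    have h5 : V.valuation (MvPolynomial.eval ![(α i : ℂ), (α j : ℂ)] (P (i, j))) ≠ 0 := by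
      rw [Ne, map_eq_zero]; exact hα i j hij
    exact absurd h3 (not_lt.mpr ((inv_le_one₀ (zero_lt_iff.mpr h5)).mp h4))
  refine ⟨?_, ?_⟩
  · intro m D hm hsub
    by_cases hnone : ∃ i, D.block i = none
    · obtain ⟨i, hi⟩ := hnone
      obtain ⟨x, hx, hxi⟩ := exists_curve_point hK hgt i (G := {jInv (D.cm i)}ᶜ)
        (Set.Finite.infinite_compl (Set.finite_singleton _))
      obtain ⟨τ, hτ⟩ := hsub hx
      apply hxi
      rw [hτ i]
      unfold SpecialDatum.coord
      rw [hi]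
      rfl
    · push Not at hnone
      obtain ⟨i, j, hij, hf⟩ : ∃ i j, i ≠ j ∧ D.block i = D.block j := by
        by_contra hcon
        push Not at hcon
        have hinj : Function.Injective (fun i : Fin n => (D.block i).get (Option.isSome_iff_ne_none.mpr (hnone i))) := by
          intro i j h
          simp only at h
          by_contra hne
          apply hcon i j hne
          rw [← Option.some_get (Option.isSome_iff_ne_none.mpr (hnone i)),
            ← Option.some_get (Option.isSome_iff_ne_none.mpr (hnone j)), h]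
        have := Fintype.card_le_of_injective _ hinj
        simp at this
        omega
      have hVinf : (V : Set ℂ).Infinite := by
        refine Set.infinite_of_injective_forall_mem (f := fun z : ℤ => (z : ℂ)) Int.cast_injective ?_
        intro z
        exact intCast_mem V z
      obtain ⟨x, hx, hxi⟩ := exists_curve_point hK hgt i (G := (V : Set ℂ)) hVinf
      obtain ⟨e, he⟩ := pattern D (hsub hx) V
      have hxj : x j ∈ V := by
        rw [he j, ← hf, ← he i]; exact hxi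
      rcases key x hx i j hij with h | h
      · exact h.notMem hp hV hxi
      · exact h.notMem hp hV hxj
  · rw [Set.eq_empty_iff_forall_notMem]
    rintro x ⟨hx, m, D, hm, hxD⟩
    exact not_special hp hV hm D hxD (key x hx)

end Pool.Agent.Results.MP_e573c6_ag.Translates
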